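import Pool.Agent.helper55.RI.SpecV

/-!
# Module V2: exponential time machines are in the library (adapted from X5)
-/

set_option autoImplicit false
set_option linter.unusedVariables false
set_option linter.unusedSectionVars false

namespace Pool.Agent.RI

open Pool.Agent.helper62 Prog Function Pool.Agent.helper81.PL

/-- a polynomial is bounded by `(n + 2) ^ d` -/
lemma V2_poly (p : Polynomial ℕ) : ∃ d : ℕ, ∀ n : ℕ, p.eval n ≤ (n + 2) ^ d := by
  induction p using Polynomial.induction_on' with
  | add p q hp hq =>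
    obtain ⟨d1, h1⟩ := hp
    obtain ⟨d2, h2⟩ := hq
    refine ⟨max d1 d2 + 1, fun n => ?_⟩
    rw [Polynomial.eval_add]
    have e1 : (n + 2) ^ d1 ≤ (n + 2) ^ (max d1 d2) := Nat.pow_le_pow_right (by omega) (le_max_left _ _)
    have e2 : (n + 2) ^ d2 ≤ (n + 2) ^ (max d1 d2) := Nat.pow_le_pow_right (by omega) (le_max_right _ _)
    have e3 : (n + 2) ^ (max d1 d2) * 2 ≤ (n + 2) ^ (max d1 d2) * (n + 2) :=
      Nat.mul_le_mul_left _ (by omega)
    have := h1 n
    have := h2 n
    rw [pow_succ]
    omega
  | monomial k a =>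
    refine ⟨a + k, fun n => ?_⟩
    rw [Polynomial.eval_monomial, pow_add]
    refine Nat.mul_le_mul ?_ (Nat.pow_le_pow_left (by omega) _)
    calc a ≤ 2 ^ a := Nat.lt_two_pow_self.le
      _ ≤ (n + 2) ^ a := Nat.pow_le_pow_left (by omega) _

theorem V2 : V2_stmt := by
  intro A hA
  obtain ⟨f, cc, ⟨M, hM⟩, hAf⟩ := hA
  obtain ⟨dd, hdd⟩ := V2_poly cc
  classical
  have : Finite M.tm.Λ := @Finite.of_fintype _ M.tm.ΛFin
  have : Finite M.tm.σ := @Finite.of_fintype _ M.tm.σFin
  have : Finite M.tm.K := @Finite.of_fintype _ M.tm.kFin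
  have : Finite (M.tm.Γ M.tm.k₀) := Finite.of_equiv Bool M.inputAlphabet.symm
  have : Finite (M.tm.Γ M.tm.k₁) := Finite.of_equiv Bool M.outputAlphabet.symm
  obtain ⟨G, hG1, hG2, hG3⟩ := X5_good_all M.tm.m
  obtain ⟨n, hn⟩ := X5_num (Λ := M.tm.Λ) (σ := M.tm.σ) G hG1
  have hgood : ∀ l, n.Good (M.tm.m l) := fun l => by
    rw [X5_good_iff, hn]
    exact hG3 l
  obtain ⟨s, hs, C, hsC⟩ := (X4 X3) M.tm.K M.tm.Γ M.tm.Λ M.tm.σ n M.tm.m hgood
  -- the initial configuration
  set num0 : Bool → ℕ := fun b => n.ng M.tm.k₀ (M.inputAlphabet.symm b) with hnum0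
  set d0 : W → ℕ × ℕ × List (List ℕ) := fun w =>
    (n.nl (some M.tm.main), n.ns M.tm.initialState,
      List.replicate (n.nk M.tm.k₀) [] ++ (w.map num0) ::
        List.replicate (n.N - n.nk M.tm.k₀ - 1) []) with hd0
  have hPTnum0 : PT (fun b : Bool => bif b then num0 true else num0 false) := by fun_prop
  have hPT0 : PT num0 := by
    convert hPTnum0 using 2 with b
    cases b <;> rfl
  have hd0PT : PT d0 := by
    have h1 : PT (fun w : W => w.map num0) :=
      pt_map (α := W) (f := fun _ b => num0 b) (PT.comp hPT0 (by fun_prop)) (by fun_prop)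
    have h2 : PT (fun w : W => List.replicate (n.nk M.tm.k₀) ([] : List ℕ) ++ (w.map num0) ::
        List.replicate (n.N - n.nk M.tm.k₀ - 1) []) := by
      have h3 : PT (fun w : W => (w.map num0) ::
          List.replicate (n.N - n.nk M.tm.k₀ - 1) ([] : List ℕ)) := by fun_prop
      exact PT.comp (f := fun w : W => (List.replicate (n.nk M.tm.k₀) ([] : List ℕ),
        (w.map num0) :: List.replicate (n.N - n.nk M.tm.k₀ - 1) ([] : List ℕ))) pt_append
        (PT.pair (PT.const _) h3)
    exact PT.pair (PT.const _) (PT.pair (PT.const _) h2)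
  -- the machine
  set c0 : W → M.tm.Cfg := fun w => Turing.initList M.tm (w.map M.inputAlphabet.invFun) with hc0
  have hR0 : ∀ w, n.Rp (c0 w) (d0 w) := by
    intro w
    have hlt := n.ltk M.tm.k₀
    refine ⟨rfl, rfl, ?_, ?_, ?_⟩
    · simp only [hd0, List.length_append, List.length_replicate, List.length_cons]
      omega
    · intro k
      by_cases hk : k = M.tm.k₀
      · subst hk
        have e1 : (c0 w).stk M.tm.k₀ = w.map M.inputAlphabet.invFun := by
          simp [hc0, Turing.initList]
        rw [e1]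
        simp only [hd0]
        rw [List.getD_append_right _ _ _ _ (by simp)]
        simp [hnum0]
      · have e1 : (c0 w).stk k = [] := by
          simp [hc0, Turing.initList, hk]
        rw [e1]
        have hne : n.nk k ≠ n.nk M.tm.k₀ := fun h => hk (n.injk h)
        have hlt' := n.ltk k
        simp only [hd0, List.map_nil]
        rcases lt_or_gt_of_ne hne with h | h
        · rw [List.getD_append _ _ _ _ (by simpa using h), List.getD_replicate _ h]
        · rw [List.getD_append_right _ _ _ _ (by simpa using h.le)]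
          obtain ⟨j, hj⟩ : ∃ j, n.nk k - (List.replicate (n.nk M.tm.k₀) ([] : List ℕ)).length =
              j + 1 := ⟨n.nk k - n.nk M.tm.k₀ - 1, by simp; omega⟩
          rw [hj, List.getD_cons_succ, List.getD_replicate]
          simp at hj
          omega
    · intro k g hg
      rw [hn]
      by_cases hk : k = M.tm.k₀
      · subst hk
        rw [hG2 _ inferInstance]
        trivial
      · have e1 : (c0 w).stk k = [] := by
          simp [hc0, Turing.initList, hk]
        rw [e1] at hg
        simp at hg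
  have hrun : ∀ (i : ℕ) (w : W) (c : M.tm.Cfg),
      (flip bind M.tm.step)^[i] (some (c0 w)) = some c →
      n.Rp c (s^[i] (d0 w)) ∧ ∀ j ≤ i, sz (s^[j] (d0 w)) ≤ sz (d0 w) + j * C := by
    intro i
    induction i with
    | zero =>
      intro w c hc
      simp only [iterate_zero, id_eq, Option.some.injEq] at hc
      subst hc
      refine ⟨hR0 w, fun j hj => ?_⟩
      obtain rfl : j = 0 := by omega
      simp
    | succ i ih =>
      intro w c hc
      rw [iterate_succ_apply'] at hc
      cases h1 : (flip bind M.tm.step)^[i] (some (c0 w)) with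
      | none =>
        rw [h1] at hc
        simp [flip] at hc
      | some c' =>
        rw [h1] at hc
        have h2 : Turing.TM2.step M.tm.m c' = some c := hc
        obtain ⟨h3, h4⟩ := ih w c' h1
        obtain ⟨h5, h6⟩ := (hsC c' _ h3).2 c h2
        rw [iterate_succ_apply']
        refine ⟨h5, fun j hj => ?_⟩
        rcases Nat.lt_or_ge j (i + 1) with h | h
        · exact h4 j (by omega)
        · obtain rfl : j = i + 1 := by omega
          rw [iterate_succ_apply']
          have := h4 i le_rfl
          rw [Nat.add_mul, one_mul]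
          omega
  have hfin : ∀ w : W, (∀ N, 2 ^ cc.eval w.length ≤ N →
      n.Rp (Turing.haltList M.tm ([f w].map M.outputAlphabet.invFun)) (s^[N] (d0 w))) ∧
      ∀ j, sz (s^[j] (d0 w)) ≤ sz (d0 w) + j * C := by
    intro w
    obtain ⟨hout⟩ := hM w
    obtain ⟨⟨steps, hev⟩, hle⟩ := hout
    simp only [id_eq] at hev hle
    have hle' : steps ≤ 2 ^ cc.eval w.length := hle
    have h1 := hrun steps w _ hev
    have h2 : Turing.TM2.step M.tm.m
        (Turing.haltList M.tm ([f w].map M.outputAlphabet.invFun)) = none := rfl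
    have h3 := (hsC _ _ h1.1).1 h2
    have h4 : ∀ j, steps ≤ j → s^[j] (d0 w) = s^[steps] (d0 w) := by
      intro j hj
      obtain ⟨t, rfl⟩ := Nat.exists_eq_add_of_le hj
      rw [add_comm, iterate_add_apply]
      exact iterate_fixed h3 t
    refine ⟨fun N hN => ?_, fun j => ?_⟩
    · rw [h4 _ (hle'.trans hN)]
      exact h1.1
    · rcases le_total j steps with h | h
      · exact h1.2 j h
      · rw [h4 _ h]
        exact (h1.2 steps le_rfl).trans (Nat.add_le_add_left (Nat.mul_le_mul_right _ h) _)
  have hiter : PT (fun t : W × ℕ => s^[t.2] (d0 t.1)) := by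
    have hd0' : PT (fun t : W × ℕ => d0 t.1) := PT.comp hd0PT pt_fst
    have h2 : PT (fun t : W × ℕ => t.2) := pt_snd
    refine pt_iter (α := W × ℕ) (n := fun t => t.2) (g := fun t => d0 t.1) (s := fun _ d => s d)
      (c := fun t => sz (d0 t.1) + t.2 * C) h2 hd0' (PT.comp hs (by fun_prop))
      (hd0'.size.add (h2.nat_pb.mul (PB.const C))) (fun t i hi => ?_)
    exact ((hfin t.1).2 i).trans (Nat.add_le_add_left (Nat.mul_le_mul_right _ hi) _)
  -- the result
  set dec : ℕ → Bool := fun x => eqb x (n.ng M.tm.k₁ (M.outputAlphabet.symm true)) with hdec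
  have hdecPT : PT dec := by fun_prop
  have hdec1 : ∀ b, dec (n.ng M.tm.k₁ (M.outputAlphabet.symm b)) = b := by
    intro b
    have hinj : Set.InjOn (n.ng M.tm.k₁) (n.G M.tm.k₁) := n.injg _
    rw [hn, hG2 _ inferInstance] at hinj
    cases b with
    | true => simp [hdec, eqb]
    | false =>
      simp only [hdec, eqb, decide_eq_false_iff_not]
      intro h
      have := M.outputAlphabet.symm.injective (hinj (Set.mem_univ _) (Set.mem_univ _) h)
      simp at this
  have hres : ∀ w N, 2 ^ cc.eval w.length ≤ N →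
      [f w] = ((s^[N] (d0 w)).2.2.getD (n.nk M.tm.k₁) []).map dec := by
    intro w N hN
    have h1 := ((hfin w).1 N hN).2.2.2.1 M.tm.k₁
    rw [h1]
    have e1 : (Turing.haltList M.tm ([f w].map M.outputAlphabet.invFun)).stk M.tm.k₁ =
        [f w].map M.outputAlphabet.invFun := by
      simp [Turing.haltList]
    rw [e1, List.map_map, List.map_map]
    conv_lhs => rw [← List.map_id [f w]]
    refine List.map_congr_left fun b _ => ?_
    exact (hdec1 b).symm
  have hfinal : PT (fun t : W × ℕ =>
      (((s^[t.2] (d0 t.1)).2.2.getD (n.nk M.tm.k₁) []).map dec).headD false) := by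
    have h1 : PT (fun t : W × ℕ => (s^[t.2] (d0 t.1)).2.2.getD (n.nk M.tm.k₁) []) :=
      PT.comp (f := fun t : W × ℕ => ((s^[t.2] (d0 t.1)).2.2, n.nk M.tm.k₁, []))
        pt_getD (PT.pair (PT.comp pt_snd (PT.comp pt_snd hiter)) (PT.const _))
    have h2 : PT (fun t : W × ℕ => ((s^[t.2] (d0 t.1)).2.2.getD (n.nk M.tm.k₁) []).map dec) :=
      pt_map (α := W × ℕ) (f := fun _ x => dec x) (PT.comp hdecPT (by fun_prop)) h1
    exact PT.comp (f := fun t : W × ℕ => (((s^[t.2] (d0 t.1)).2.2.getD (n.nk M.tm.k₁) []).map dec, false))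
      pt_headD (PT.pair h2 (PT.const _))
  refine ⟨_, dd, hfinal, fun x => ?_⟩
  rw [hAf x]
  have h1 : 2 ^ cc.eval x.length ≤ ck dd x := Nat.pow_le_pow_right (by omega) (hdd _)
  have h2 := hres x (ck dd x) h1
  simp only [← h2, List.headD_cons]

end Pool.Agent.RI
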