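import Pool.Agent.helper55.RI.SpecV

/-!
# Module V6: the diagonal set is in exponential time
-/

set_option autoImplicit false
set_option linter.unusedVariables false

namespace Pool.Agent.RI

open Pool.Agent.helper62 Prog Function Pool.Agent.helper81.PL

/-! ### Clipped versions -/

/-- clipped membership -/
def V6_mem (r : W × ℕ → Bool) (d N : ℕ) (u : W) : Bool := r (u, min (ck d u) N)

/-- clipped `GE` -/
def V6_GE (N : ℕ) (i x : W) : W := EWc i (pr i x) N

/-- clipped `falE` -/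
def V6_fal (N : ℕ) (i p x : W) : Bool :=
  (wdsc x.length N).any (fun v => leb (EWc (fs p) v N).length x.length &&
    (!eqb (EWc (sn p) (EWc (fs p) v N) N) v ||
      (wdsc (EWc (fs p) v N).length N).all (fun y => !eqb (V6_GE N i y) (EWc (fs p) v N))))

/-- clipped `kkE` -/
def V6_kk (N : ℕ) (i x : W) : W :=
  ((wdsc (x.length + 1) N).find? (fun p => !V6_fal N i p x)).getD []

/-- clipped `tauE` -/
def V6_tau (N : ℕ) (i x : W) : W := EWc (sn (V6_kk N i x)) (V6_GE N i x) N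

/-- clipped `TE` -/
def V6_TE (r : W × ℕ → Bool) (d N : ℕ) (i x : W) : Bool :=
  leb (fs (V6_tau N i x)).length x.length && V6_mem r d N (fs (V6_tau N i x))

/-- clipped `y0` -/
def V6_y0 (N : ℕ) (i x : W) : W :=
  ((wdsc (x.length + 1) N).find? (fun y => eqb (V6_GE N i y) (V6_GE N i x))).getD x

/-- the condition in `DE` -/
def V6_cond (r : W × ℕ → Bool) (d N : ℕ) (i x : W) : Bool :=
  (leb (V6_GE N i x).length x.length && !V6_mem r d N (V6_GE N i x)) ||
   (leb (x.length + 1) (V6_GE N i x).length &&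
     ((eqb (V6_y0 N i x) x && V6_TE r d N i x) ||
      (!eqb (V6_y0 N i x) x && !V6_TE r d N i (V6_y0 N i x))))

/-- the clocked decision function -/
def V6_R (r : W × ℕ → Bool) (d : ℕ) (t : W × ℕ) : Bool :=
  eqb (pr (fs t.1) (sn t.1)) t.1 && V6_cond r d t.2 (fs t.1) (sn t.1)

/-! ### Polynomial time -/

section
variable {α : Type} [Rep α]

theorem V6_pE (hV4 : V4_stmt) {a b : α → W} {c : α → ℕ} (ha : PT a) (hb : PT b) (hc : PT c) :
    PT (fun t => EWc (a t) (b t) (c t)) :=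
  PT.comp (f := fun t => (a t, b t, c t)) hV4.1 (PT.pair ha (PT.pair hb hc))

theorem V6_pG (hG1 : G1_stmt) (hV4 : V4_stmt) {a b : α → W} {c : α → ℕ} (ha : PT a) (hb : PT b)
    (hc : PT c) : PT (fun t => V6_GE (c t) (a t) (b t)) := by
  unfold V6_GE
  exact V6_pE hV4 ha (PT.comp (f := fun t => (a t, b t)) hG1.2.2.1 (PT.pair ha hb)) hc

theorem V6_pw (hV5 : V5_stmt) {a b : α → ℕ} (ha : PT a) (hb : PT b) :
    PT (fun t => wdsc (a t) (b t)) :=
  PT.comp (f := fun t => (a t, b t)) hV5.2.2.1 (PT.pair ha hb)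

theorem V6_pf (hG1 : G1_stmt) {a : α → W} (ha : PT a) : PT (fun t => fs (a t)) :=
  PT.comp hG1.1 ha

theorem V6_ps (hG1 : G1_stmt) {a : α → W} (ha : PT a) : PT (fun t => sn (a t)) :=
  PT.comp hG1.2.1 ha

theorem V6_pm (hV5 : V5_stmt) {r : W × ℕ → Bool} {d : ℕ} (hr : PT r) {a : α → W} {c : α → ℕ}
    (ha : PT a) (hc : PT c) : PT (fun t => V6_mem r d (c t) (a t)) := by
  unfold V6_mem
  have h1 : PT (fun t => min (ck d (a t)) (c t)) :=
    PT.comp (f := fun t => (a t, c t)) (hV5.2.1 d) (PT.pair ha hc)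
  exact PT.comp (f := fun t => (a t, min (ck d (a t)) (c t))) hr (PT.pair ha h1)

theorem V6_pand {a b : α → Bool} (ha : PT a) (hb : PT b) : PT (fun t => a t && b t) :=
  PT.comp (f := fun t => (a t, b t)) pt_and (PT.pair ha hb)

theorem V6_por {a b : α → Bool} (ha : PT a) (hb : PT b) : PT (fun t => a t || b t) :=
  PT.comp (f := fun t => (a t, b t)) pt_or (PT.pair ha hb)

theorem V6_pnot {a : α → Bool} (ha : PT a) : PT (fun t => !a t) :=
  PT.comp (f := fun t => a t) pt_not ha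

theorem V6_peqb {a b : α → W} (ha : PT a) (hb : PT b) : PT (fun t => eqb (a t) (b t)) :=
  PT.comp (f := fun t => (a t, b t)) pt_eqb (PT.pair ha hb)

theorem V6_pleb {a b : α → ℕ} (ha : PT a) (hb : PT b) : PT (fun t => leb (a t) (b t)) :=
  PT.comp (f := fun t => (a t, b t)) pt_leb (PT.pair ha hb)

theorem V6_plen {a : α → W} (ha : PT a) : PT (fun t => (a t).length) :=
  PT.comp (f := fun t => a t) pt_length ha

theorem V6_psucc {a : α → ℕ} (ha : PT a) : PT (fun t => a t + 1) :=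
  PT.comp (f := fun t => a t) pt_succ ha

theorem V6_pfal (hG1 : G1_stmt) (hV4 : V4_stmt) (hV5 : V5_stmt) {a b p : α → W} {c : α → ℕ}
    (ha : PT a) (hb : PT b) (hp : PT p) (hc : PT c) :
    PT (fun t => V6_fal (c t) (a t) (p t) (b t)) := by
  unfold V6_fal
  refine pt_any (f := fun (t : α) (v : W) => leb (EWc (fs (p t)) v (c t)).length (b t).length &&
    (!eqb (EWc (sn (p t)) (EWc (fs (p t)) v (c t)) (c t)) v ||
      (wdsc (EWc (fs (p t)) v (c t)).length (c t)).all
        (fun y => !eqb (V6_GE (c t) (a t) y) (EWc (fs (p t)) v (c t))))) ?_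
    (V6_pw hV5 (by fun_prop) hc)
  have hb' : PT (fun q : α × W => b q.1) := by fun_prop
  have hc' : PT (fun q : α × W => c q.1) := by fun_prop
  have hp' : PT (fun q : α × W => p q.1) := by fun_prop
  have h2 : PT (fun q : α × W => q.2) := pt_snd
  have e1 : PT (fun q : α × W => EWc (fs (p q.1)) q.2 (c q.1)) := V6_pE hV4 (V6_pf hG1 hp') h2 hc'
  have e2 : PT (fun q : α × W => EWc (sn (p q.1)) (EWc (fs (p q.1)) q.2 (c q.1)) (c q.1)) :=
    V6_pE hV4 (V6_ps hG1 hp') e1 hc'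
  have e3 : PT (fun q : α × W => wdsc (EWc (fs (p q.1)) q.2 (c q.1)).length (c q.1)) :=
    V6_pw hV5 (by fun_prop) hc'
  have e4 : PT (fun q : α × W => (wdsc (EWc (fs (p q.1)) q.2 (c q.1)).length (c q.1)).all
        (fun y => !eqb (V6_GE (c q.1) (a q.1) y) (EWc (fs (p q.1)) q.2 (c q.1)))) := by
    refine pt_all (f := fun (q : α × W) (y : W) =>
      !eqb (V6_GE (c q.1) (a q.1) y) (EWc (fs (p q.1)) q.2 (c q.1))) ?_ e3
    have g1 : PT (fun z : (α × W) × W => V6_GE (c z.1.1) (a z.1.1) z.2) :=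
      V6_pG hG1 hV4 (by fun_prop) (by fun_prop) (by fun_prop)
    have g2 : PT (fun z : (α × W) × W => EWc (fs (p z.1.1)) z.1.2 (c z.1.1)) :=
      PT.comp (f := fun z : (α × W) × W => z.1) e1 pt_fst
    exact V6_pnot (V6_peqb g1 g2)
  exact V6_pand (V6_pleb (V6_plen e1) (V6_plen (PT.comp (f := fun q : α × W => q.1) hb pt_fst)))
    (V6_por (V6_pnot (V6_peqb e2 h2)) e4)

theorem V6_pkk (hG1 : G1_stmt) (hV4 : V4_stmt) (hV5 : V5_stmt) {a b : α → W} {c : α → ℕ}
    (ha : PT a) (hb : PT b) (hc : PT c) : PT (fun t => V6_kk (c t) (a t) (b t)) := by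
  unfold V6_kk
  have h1 : PT (fun t => (wdsc ((b t).length + 1) (c t)).find?
      (fun p => !V6_fal (c t) (a t) p (b t))) := by
    refine pt_find? (f := fun (t : α) (p : W) => !V6_fal (c t) (a t) p (b t)) ?_
      (V6_pw hV5 (by fun_prop) hc)
    have := V6_pfal (α := α × W) hG1 hV4 hV5 (a := fun q => a q.1) (b := fun q => b q.1)
      (p := fun q => q.2) (c := fun q => c q.1) (by fun_prop) (by fun_prop) (by fun_prop)
      (by fun_prop)
    exact V6_pnot this
  exact PT.comp (f := fun t => ((wdsc ((b t).length + 1) (c t)).find?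
      (fun p => !V6_fal (c t) (a t) p (b t)), ([] : W))) pt_optGetD (PT.pair h1 (PT.const _))

theorem V6_ptau (hG1 : G1_stmt) (hV4 : V4_stmt) (hV5 : V5_stmt) {a b : α → W} {c : α → ℕ}
    (ha : PT a) (hb : PT b) (hc : PT c) : PT (fun t => V6_tau (c t) (a t) (b t)) := by
  unfold V6_tau
  exact V6_pE hV4 (V6_ps hG1 (V6_pkk hG1 hV4 hV5 ha hb hc)) (V6_pG hG1 hV4 ha hb hc) hc

theorem V6_pTE (hG1 : G1_stmt) (hV4 : V4_stmt) (hV5 : V5_stmt) {r : W × ℕ → Bool} {d : ℕ}
    (hr : PT r) {a b : α → W} {c : α → ℕ}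
    (ha : PT a) (hb : PT b) (hc : PT c) : PT (fun t => V6_TE r d (c t) (a t) (b t)) := by
  unfold V6_TE
  have h1 : PT (fun t => fs (V6_tau (c t) (a t) (b t))) := V6_pf hG1 (V6_ptau hG1 hV4 hV5 ha hb hc)
  have h2 := V6_pm hV5 (d := d) hr h1 hc
  exact V6_pand (V6_pleb (V6_plen h1) (V6_plen hb)) h2

theorem V6_py0 (hG1 : G1_stmt) (hV4 : V4_stmt) (hV5 : V5_stmt) {a b : α → W} {c : α → ℕ}
    (ha : PT a) (hb : PT b) (hc : PT c) : PT (fun t => V6_y0 (c t) (a t) (b t)) := by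
  unfold V6_y0
  have h1 : PT (fun t => (wdsc ((b t).length + 1) (c t)).find?
      (fun y => eqb (V6_GE (c t) (a t) y) (V6_GE (c t) (a t) (b t)))) := by
    refine pt_find? (f := fun (t : α) (y : W) =>
      eqb (V6_GE (c t) (a t) y) (V6_GE (c t) (a t) (b t))) ?_ (V6_pw hV5 (by fun_prop) hc)
    have g1 : PT (fun z : α × W => V6_GE (c z.1) (a z.1) z.2) :=
      V6_pG hG1 hV4 (by fun_prop) (by fun_prop) (by fun_prop)
    have g2 : PT (fun z : α × W => V6_GE (c z.1) (a z.1) (b z.1)) :=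
      V6_pG hG1 hV4 (by fun_prop) (by fun_prop) (by fun_prop)
    exact V6_peqb g1 g2
  exact PT.comp (f := fun t => ((wdsc ((b t).length + 1) (c t)).find?
      (fun y => eqb (V6_GE (c t) (a t) y) (V6_GE (c t) (a t) (b t))), b t)) pt_optGetD
    (PT.pair h1 hb)

theorem V6_pcond (hG1 : G1_stmt) (hV4 : V4_stmt) (hV5 : V5_stmt) {r : W × ℕ → Bool} {d : ℕ}
    (hr : PT r) {a b : α → W} {c : α → ℕ}
    (ha : PT a) (hb : PT b) (hc : PT c) : PT (fun t => V6_cond r d (c t) (a t) (b t)) := by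
  have h2 := V6_pG hG1 hV4 ha hb hc
  have h3 := V6_pm hV5 (d := d) hr h2 hc
  have h4 := V6_py0 hG1 hV4 hV5 ha hb hc
  have h5 := V6_pTE (d := d) hG1 hV4 hV5 hr ha hb hc
  have h6 := V6_pTE (d := d) hG1 hV4 hV5 hr ha h4 hc
  unfold V6_cond
  exact V6_por (V6_pand (V6_pleb (V6_plen h2) (V6_plen hb)) (V6_pnot h3))
    (V6_pand (V6_pleb (V6_psucc (V6_plen hb)) (V6_plen h2))
      (V6_por (V6_pand (V6_peqb h4 hb) h5) (V6_pand (V6_pnot (V6_peqb h4 hb)) (V6_pnot h6))))

end

theorem V6_pR (hG1 : G1_stmt) (hV4 : V4_stmt) (hV5 : V5_stmt) {r : W × ℕ → Bool} {d : ℕ}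
    (hr : PT r) : PT (V6_R r d) := by
  have hf : PT (fun t : W × ℕ => fs t.1) := V6_pf hG1 pt_fst
  have hs : PT (fun t : W × ℕ => sn t.1) := V6_ps hG1 pt_fst
  have hN : PT (fun t : W × ℕ => t.2) := pt_snd
  have h1 : PT (fun t : W × ℕ => pr (fs t.1) (sn t.1)) :=
    PT.comp (f := fun t : W × ℕ => (fs t.1, sn t.1)) hG1.2.2.1 (PT.pair hf hs)
  exact V6_pand (V6_peqb h1 pt_fst) (V6_pcond hG1 hV4 hV5 hr hf hs hN)

/-! ### Correctness -/

theorem V6_find {β : Type} (l : List β) (f g : β → Bool) (h : ∀ p ∈ l, f p = g p) :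
    l.find? f = l.find? g := by
  induction l with
  | nil => rfl
  | cons a l ih =>
    rw [List.find?_cons, List.find?_cons, h a (by simp), ih (fun p hp => h p (by simp [hp]))]

theorem V6_any {β : Type} (l : List β) (f g : β → Bool) (h : ∀ p ∈ l, f p = g p) :
    l.any f = l.any g := by
  induction l with
  | nil => rfl
  | cons a l ih =>
    rw [List.any_cons, List.any_cons, h a (by simp), ih (fun p hp => h p (by simp [hp]))]

theorem V6_all {β : Type} (l : List β) (f g : β → Bool) (h : ∀ p ∈ l, f p = g p) :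
    l.all f = l.all g := by
  induction l with
  | nil => rfl
  | cons a l ih =>
    rw [List.all_cons, List.all_cons, h a (by simp), ih (fun p hp => h p (by simp [hp]))]

theorem V6_findD {l : List W} {f : W → Bool} {x : W} {n : ℕ} (h : ∀ p ∈ l, p.length ≤ n)
    (hx : x.length ≤ n) : ((l.find? f).getD x).length ≤ n := by
  cases hf : l.find? f with
  | none => simpa using hx
  | some p => exact h p (List.mem_of_find?_eq_some hf)

/-- the clips are inactive -/
structure V6_Ok (A : Set W) (r : W × ℕ → Bool) (d N : ℕ) (i x : W) : Prop where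
  h1 : ∀ y : W, y.length ≤ x.length → V6_GE N i y = GE i y
  h2 : ∀ p v : W, p.length ≤ x.length → v.length ≤ x.length → EWc (fs p) v N = EW (fs p) v
  h3 : ∀ p v : W, p.length ≤ x.length → v.length ≤ x.length → EWc (sn p) v N = EW (sn p) v
  h4 : ∀ m ≤ x.length + 1, wdsc m N = wds m
  h5 : ∀ p y : W, p.length ≤ x.length → y.length ≤ x.length →
    EWc (sn p) (GE i y) N = EW (sn p) (GE i y)
  h6 : ∀ u : W, u.length ≤ x.length → (V6_mem r d N u = true ↔ u ∈ A)

section
variable {A : Set W} {r : W × ℕ → Bool} {d N : ℕ} {i x : W}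

theorem V6_falE (hw : ∀ (n : ℕ) (w : W), w ∈ wds n ↔ w.length < n) (h : V6_Ok A r d N i x)
    (p x' : W) (hp : p.length ≤ x'.length) (hx : x'.length ≤ x.length) :
    V6_fal N i p x' = falE i p x' := by
  unfold V6_fal falE
  rw [h.h4 _ (by omega)]
  apply V6_any
  intro v hv
  rw [hw] at hv
  rw [h.h2 p v (by omega) (by omega)]
  by_cases hu : (EW (fs p) v).length ≤ x'.length
  · rw [h.h3 p _ (by omega) (by omega), h.h4 _ (by omega)]
    have e1 : (wds (EW (fs p) v).length).all (fun y => !eqb (V6_GE N i y) (EW (fs p) v)) =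
        (wds (EW (fs p) v).length).all (fun y => !decide (GE i y = EW (fs p) v)) := by
      apply V6_all
      intro y hy
      rw [hw] at hy
      rw [h.h1 y (by omega)]
      rfl
    rw [e1]
    rfl
  · have e1 : leb (EW (fs p) v).length x'.length = false := by
      simp only [leb, decide_eq_false_iff_not]
      exact hu
    rw [e1]
    simp [hu]

theorem V6_kkE (hw : ∀ (n : ℕ) (w : W), w ∈ wds n ↔ w.length < n) (h : V6_Ok A r d N i x)
    (x' : W) (hx : x'.length ≤ x.length) :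
    V6_kk N i x' = kkE i x' ∧ (kkE i x').length ≤ x'.length := by
  constructor
  · unfold V6_kk kkE
    rw [h.h4 _ (by omega)]
    congr 1
    apply V6_find
    intro p hp
    rw [hw] at hp
    rw [V6_falE hw h p x' (by omega) hx]
  · unfold kkE
    apply V6_findD
    · intro p hp
      rw [hw] at hp
      omega
    · simp

theorem V6_tauE (hw : ∀ (n : ℕ) (w : W), w ∈ wds n ↔ w.length < n) (h : V6_Ok A r d N i x)
    (x' : W) (hx : x'.length ≤ x.length) : V6_tau N i x' = tauE i x' := by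
  unfold V6_tau tauE
  obtain ⟨e1, e2⟩ := V6_kkE hw h x' hx
  rw [e1, h.h1 x' hx, h.h5 _ _ (by omega) hx]

theorem V6_TEE (hw : ∀ (n : ℕ) (w : W), w ∈ wds n ↔ w.length < n) (h : V6_Ok A r d N i x)
    (x' : W) (hx : x'.length ≤ x.length) : V6_TE r d N i x' = true ↔ TE A i x' := by
  unfold V6_TE TE
  rw [V6_tauE hw h x' hx, Bool.and_eq_true]
  simp only [leb, decide_eq_true_eq]
  refine and_congr_right (fun h1 => ?_)
  exact h.h6 _ (by omega)

theorem V6_y0E (hw : ∀ (n : ℕ) (w : W), w ∈ wds n ↔ w.length < n) (h : V6_Ok A r d N i x) :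
    V6_y0 N i x = y0 i x ∧ (y0 i x).length ≤ x.length := by
  constructor
  · unfold V6_y0 y0
    rw [h.h4 _ (by omega)]
    congr 1
    apply V6_find
    intro y hy
    rw [hw] at hy
    rw [h.h1 y (by omega), h.h1 x le_rfl]
    rfl
  · unfold y0
    apply V6_findD
    · intro p hp
      rw [hw] at hp
      omega
    · exact le_rfl

theorem V6_condE (hw : ∀ (n : ℕ) (w : W), w ∈ wds n ↔ w.length < n) (h : V6_Ok A r d N i x) :
    V6_cond r d N i x = true ↔ (((GE i x).length ≤ x.length ∧ GE i x ∉ A) ∨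
      (x.length < (GE i x).length ∧
        ((y0 i x = x ∧ TE A i x) ∨ (y0 i x ≠ x ∧ ¬ TE A i (y0 i x))))) := by
  unfold V6_cond
  obtain ⟨e1, e2⟩ := V6_y0E hw h
  rw [e1, h.h1 x le_rfl]
  have e3 := V6_TEE hw h x le_rfl
  have e4 := V6_TEE hw h (y0 i x) e2
  simp only [Bool.or_eq_true, Bool.and_eq_true, leb, eqb, decide_eq_true_eq, Bool.not_eq_true',
    e3, ← Bool.not_eq_true, e4]
  refine or_congr ?_ ?_
  · refine and_congr_right (fun h1 => ?_)
    rw [h.h6 _ h1]
  · exact and_congr Iff.rfl Iff.rfl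

end

/-! ### The clock -/

theorem V6_two (m : ℕ) : m ≤ 2 ^ m := Nat.lt_two_pow_self.le

theorem V6_arith (n D : ℕ) (hn : 1 ≤ n) (hD : 3 ≤ D) :
    (n + 2) ^ n ≤ 2 ^ ((n + 2) ^ D) ∧ (n + (n + 2) ^ n + 2) ^ n ≤ 2 ^ ((n + 2) ^ D) ∧
    2 ^ (n + 1) ≤ 2 ^ ((n + 2) ^ D) := by
  have h1 : (n + 2) ^ n ≤ 2 ^ ((n + 2) * n) := by
    rw [pow_mul]
    exact Nat.pow_le_pow_left (V6_two _) _
  have h3 : (n + 2) ^ 3 ≤ (n + 2) ^ D := Nat.pow_le_pow_right (by omega) hD
  have h4 : 2 ^ ((n + 2) ^ 3) ≤ 2 ^ ((n + 2) ^ D) := Nat.pow_le_pow_right (by omega) h3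
  have h5 : n + (n + 2) ^ n + 2 ≤ 2 ^ ((n + 2) * (n + 1)) := by
    have e1 : n + 2 ≤ 2 ^ (n + 2) := V6_two _
    have e2 : 2 ^ (n + 2) ≤ 2 ^ ((n + 2) * (n + 1) - 1) := by
      apply Nat.pow_le_pow_right (by omega)
      have : (n + 2) * (n + 1) = (n + 2) * n + (n + 2) := by ring
      have h6 : n + 2 ≤ (n + 2) * n := Nat.le_mul_of_pos_right _ hn
      omega
    have e3 : 2 ^ ((n + 2) * n) ≤ 2 ^ ((n + 2) * (n + 1) - 1) := by
      apply Nat.pow_le_pow_right (by omega)
      have : (n + 2) * (n + 1) = (n + 2) * n + (n + 2) := by ring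
      omega
    have e5 : (n + 2) * (n + 1) - 1 + 1 = (n + 2) * (n + 1) :=
      Nat.sub_add_cancel (Nat.mul_pos (by omega) (by omega))
    have e4 : 2 ^ ((n + 2) * (n + 1)) = 2 ^ ((n + 2) * (n + 1) - 1) * 2 := by
      rw [← pow_succ, e5]
    omega
  refine ⟨h1.trans (le_trans ?_ h4), ?_, ?_⟩
  · apply Nat.pow_le_pow_right (by omega)
    calc (n + 2) * n ≤ (n + 2) * (n + 2) := Nat.mul_le_mul_left _ (by omega)
      _ = (n + 2) ^ 2 := by ring
      _ ≤ (n + 2) ^ 3 := Nat.pow_le_pow_right (by omega) (by omega)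
  · calc (n + (n + 2) ^ n + 2) ^ n ≤ (2 ^ ((n + 2) * (n + 1))) ^ n := Nat.pow_le_pow_left h5 _
      _ = 2 ^ ((n + 2) * (n + 1) * n) := by rw [← pow_mul]
      _ ≤ 2 ^ ((n + 2) ^ 3) := by
          apply Nat.pow_le_pow_right (by omega)
          calc (n + 2) * (n + 1) * n ≤ (n + 2) * (n + 2) * (n + 2) :=
              Nat.mul_le_mul (Nat.mul_le_mul_left _ (by omega)) (by omega)
            _ = (n + 2) ^ 3 := by ring
      _ ≤ _ := h4
  · apply Nat.pow_le_pow_right (by omega)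
    calc n + 1 ≤ n + 2 := by omega
      _ ≤ (n + 2) ^ D := Nat.le_self_pow (by omega) _

theorem V6_ok (hG1 : G1_stmt) (hV4 : V4_stmt) {A : Set W} {r : W × ℕ → Bool} {d : ℕ}
    (hA : ∀ x, x ∈ A ↔ r (x, ck d x) = true) (i x : W) :
    V6_Ok A r d (ck (d + 3) (pr i x)) i x := by
  have hlen := hG1.2.2.2.2.2.2
  have hfs := hG1.2.2.2.2.2.1
  have hsn : ∀ w : W, (sn w).length ≤ w.length := by
    intro w
    unfold sn
    rw [List.length_drop]
    omega
  set n := (pr i x).length with hn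
  have hn1 : n = 2 * i.length + 1 + x.length := hlen i x
  have hN : ck (d + 3) (pr i x) = 2 ^ ((n + 2) ^ (d + 3)) := rfl
  obtain ⟨a1, a2, a3⟩ := V6_arith n (d + 3) (by omega) (by omega)
  rw [← hN] at a1 a2 a3
  have key : ∀ (p w : W), p.length ≤ n → w.length ≤ n →
      EWc p w (ck (d + 3) (pr i x)) = EW p w := by
    intro p w hp hw
    apply hV4.2.1
    calc (w.length + 2) ^ p.length ≤ (n + 2) ^ p.length := Nat.pow_le_pow_left (by omega) _
      _ ≤ (n + 2) ^ n := Nat.pow_le_pow_right (by omega) hp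
      _ ≤ _ := a1
  have hpr : ∀ y : W, y.length ≤ x.length → (pr i y).length ≤ n := by
    intro y hy
    rw [hlen]
    omega
  refine ⟨?_, ?_, ?_, ?_, ?_, ?_⟩
  · intro y hy
    exact key _ _ (by omega) (hpr y hy)
  · intro p v hp hv
    have := hfs p
    exact key _ _ (by omega) (by omega)
  · intro p v hp hv
    have := hsn p
    exact key _ _ (by omega) (by omega)
  · intro m hm
    unfold wdsc
    rw [if_pos]
    exact le_trans (Nat.pow_le_pow_right (by omega) (by omega)) a3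
  · intro p y hp hy
    apply hV4.2.1
    have e1 : (GE i y).length ≤ n + (n + 2) ^ n := by
      have e2 := hV4.2.2.1 i (pr i y)
      have e3 : ((pr i y).length + 2) ^ i.length ≤ (n + 2) ^ n :=
        (Nat.pow_le_pow_left (by have := hpr y hy; omega) _).trans
          (Nat.pow_le_pow_right (by omega) (by omega))
      have e4 := hpr y hy
      show (EW i (pr i y)).length ≤ _
      omega
    have e5 := hsn p
    calc ((GE i y).length + 2) ^ (sn p).length ≤ (n + (n + 2) ^ n + 2) ^ (sn p).length :=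
          Nat.pow_le_pow_left (by omega) _
      _ ≤ (n + (n + 2) ^ n + 2) ^ n := Nat.pow_le_pow_right (by omega) (by omega)
      _ ≤ _ := a2
  · intro u hu
    have e1 : ck d u ≤ ck (d + 3) (pr i x) := by
      apply Nat.pow_le_pow_right (by omega)
      calc (u.length + 2) ^ d ≤ (n + 2) ^ d := Nat.pow_le_pow_left (by omega) _
        _ ≤ (n + 2) ^ (d + 3) := Nat.pow_le_pow_right (by omega) (by omega)
    unfold V6_mem
    rw [min_eq_left e1]
    exact (hA u).symm

theorem V6 (hG1 : G1_stmt) (hV4 : V4_stmt) (hV5 : V5_stmt) : V6_stmt := by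
  rintro A ⟨r, d, hr, hA⟩
  refine ⟨V6_R r d, d + 3, V6_pR hG1 hV4 hV5 hr, fun w => ?_⟩
  have hw := hV5.2.2.2.2
  have hfs := hG1.2.2.2.1
  have hsn := hG1.2.2.2.2.1
  have hR : V6_R r d (w, ck (d + 3) w) = true ↔
      (pr (fs w) (sn w) = w ∧ V6_cond r d (ck (d + 3) w) (fs w) (sn w) = true) := by
    unfold V6_R
    rw [Bool.and_eq_true]
    simp only [eqb, decide_eq_true_eq]
  rw [hR]
  constructor
  · rintro ⟨i, x, rfl, h⟩
    rw [hfs, hsn]
    exact ⟨rfl, (V6_condE hw (V6_ok hG1 hV4 hA i x)).2 h⟩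
  · rintro ⟨h1, h2⟩
    refine ⟨fs w, sn w, h1.symm, ?_⟩
    have h3 := V6_ok hG1 hV4 hA (fs w) (sn w)
    rw [h1] at h3
    exact (V6_condE hw h3).1 h2

end Pool.Agent.RI
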